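import Mathlib
import Pool.Agent.LeoD.CountStmts

/-!
# PRB: residue classes of pairs of `𝓞 ⊕ 𝔟` primitive at the primes of `Q` (squad LEOD)
-/

set_option autoImplicit false

open NumberField NumberField.InfinitePlace NumberField.mixedEmbedding IsDedekindDomain Module
  MeasureTheory Filter Topology
open Pool.Agent.Helper85_Leo Pool.Agent.LeoK Pool.Agent.LeoG Pool.Agent.LeoC

open scoped Classical

namespace Pool.Agent.LeoD.H67

theorem ncard_pre {A B : Type*} [AddCommGroup A] [AddCommGroup B] (f : A →+ B)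
    (hf : Function.Surjective f) (S : Set B) :
    (f ⁻¹' S).ncard = Nat.card f.ker * S.ncard := by
  have h := Function.surjInv_eq hf
  have e : (f ⁻¹' S) ≃ f.ker × S :=
    { toFun := fun x => (⟨x.1 - Function.surjInv hf (f x.1), by
        rw [AddMonoidHom.mem_ker, map_sub, h, sub_self]⟩, ⟨f x.1, x.2⟩)
      invFun := fun y => ⟨y.1.1 + Function.surjInv hf y.2.1, by
        have h1 : f y.1.1 = 0 := y.1.2
        show f (y.1.1 + Function.surjInv hf y.2.1) ∈ S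
        rw [map_add, h1, h, zero_add]
        exact y.2.2⟩
      left_inv := fun x => by
        apply Subtype.ext
        simp
      right_inv := fun y => by
        have h1 : f y.1.1 = 0 := y.1.2
        have h2 : f (y.1.1 + Function.surjInv hf y.2.1) = y.2.1 := by
          rw [map_add, h1, h, zero_add]
        apply Prod.ext
        · apply Subtype.ext
          simp only [h2]
          simp
        · apply Subtype.ext
          exact h2 }
  rw [← Nat.card_coe_set_eq, ← Nat.card_coe_set_eq, Nat.card_congr e, Nat.card_prod]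

theorem mem_of_mul_mem {k : Type} [Field k] [NumberField k]
    (Q : Finset (HeightOneSpectrum (𝓞 k))) (I : Ideal (𝓞 k)) (a : 𝓞 k)
    (ha : ∀ s : 𝓞 k, s * a ∈ I * ∏ p ∈ Q, p.asIdeal → s ∈ ∏ p ∈ Q, p.asIdeal)
    (q : HeightOneSpectrum (𝓞 k)) (hq : q ∈ Q) (s : 𝓞 k) (hs : s * a ∈ q.asIdeal * I) :
    s ∈ q.asIdeal := by
  have hP : ∏ p ∈ Q, p.asIdeal = q.asIdeal * ∏ p ∈ Q.erase q, p.asIdeal :=
    (Finset.mul_prod_erase Q (fun p => p.asIdeal) hq).symm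
  have hnot : ¬ ∏ p ∈ Q.erase q, p.asIdeal ≤ q.asIdeal := by
    intro h
    obtain ⟨p, hp, hpq⟩ := (Ideal.IsPrime.prod_le q.isPrime).1 h
    have h1 : p.asIdeal = q.asIdeal := p.isMaximal.eq_of_le q.isPrime.ne_top hpq
    exact (Finset.mem_erase.1 hp).1 (HeightOneSpectrum.ext h1)
  obtain ⟨t, ht, htq⟩ := SetLike.not_le_iff_exists.1 hnot
  have h2 : (t * s) * a ∈ I * ∏ p ∈ Q, p.asIdeal := by
    have h3 : (s * a) * t ∈ (q.asIdeal * I) * ∏ p ∈ Q.erase q, p.asIdeal :=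
      Ideal.mul_mem_mul hs ht
    have h4 : (q.asIdeal * I) * ∏ p ∈ Q.erase q, p.asIdeal = I * ∏ p ∈ Q, p.asIdeal := by
      rw [hP]
      ring
    rw [h4] at h3
    have h5 : (t * s) * a = (s * a) * t := by ring
    rw [h5]
    exact h3
  have h6 : t * s ∈ q.asIdeal := by
    have h7 := ha _ h2
    rw [hP] at h7
    have h8 : q.asIdeal * ∏ p ∈ Q.erase q, p.asIdeal ≤ q.asIdeal := Ideal.mul_le_left
    exact h8 h7
  exact (q.isPrime.mem_or_mem h6).resolve_left htq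

theorem prb_aux (gnl : GnlStmt) (k : Type) [Field k] [NumberField k] (B : BFr k)
    (Q : Finset (HeightOneSpectrum (𝓞 k))) (hbb : B.bb ≠ ⊥) (P : Ideal (𝓞 k))
    (hP : ∏ p ∈ Q, p.asIdeal = P) (hP0 : P ≠ ⊥) (S₀ : Set ((𝓞 k ⧸ P) × (𝓞 k ⧸ P)))
    (hS1 : ∀ X Y : 𝓞 k, (Ideal.Quotient.mk P X, Ideal.Quotient.mk P Y) ∈ S₀ →
      ∀ p ∈ Q, ¬ (X ∈ p.asIdeal ∧ Y ∈ p.asIdeal))
    (hS2 : (∏ p ∈ Q, (1 - 1 / np p ^ 2)) * (Ideal.absNorm P : ℝ) ^ 2 ≤ (S₀.ncard : ℝ)) :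
    ∃ (J : Ideal (𝓞 k)) (S : Set ((𝓞 k ⧸ J) × (𝓞 k ⧸ J))), J ≠ ⊥ ∧
      (∀ X Y : 𝓞 k, (Ideal.Quotient.mk J X, Ideal.Quotient.mk J Y) ∈ S →
        Y ∈ B.bb ∧ ∀ q ∈ Q, ¬ (X ∈ q.asIdeal ∧ Y ∈ q.asIdeal * B.bb)) ∧
      (∏ p ∈ Q, (1 - 1 / np p ^ 2)) * (Ideal.absNorm J : ℝ) ^ 2 ≤ (B.b : ℝ) * (S.ncard : ℝ) := by
  obtain ⟨a, haI, ha1, -⟩ := gnl k B.bb P hbb hP0
  have hJ0 : B.bb * P ≠ ⊥ := mul_ne_zero hbb hP0
  have hJP : B.bb * P ≤ P := Ideal.mul_le_right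
  have hJb : B.bb * P ≤ B.bb := Ideal.mul_le_left
  have hPq : ∀ q ∈ Q, P ≤ q.asIdeal := by
    intro q hq
    rw [← hP]
    exact Ideal.le_of_dvd (Finset.dvd_prod_of_mem _ hq)
  refine ⟨B.bb * P, {c | ∃ X s : 𝓞 k, c = (Ideal.Quotient.mk (B.bb * P) X,
    Ideal.Quotient.mk (B.bb * P) (s * a)) ∧ (Ideal.Quotient.mk P X, Ideal.Quotient.mk P s) ∈ S₀},
    hJ0, ?_, ?_⟩
  · rintro X Y ⟨X', s, hc, hs⟩
    rw [Prod.mk.injEq, Ideal.Quotient.mk_eq_mk_iff_sub_mem, Ideal.Quotient.mk_eq_mk_iff_sub_mem]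
      at hc
    obtain ⟨hX, hY⟩ := hc
    constructor
    · have h1 := B.bb.add_mem (hJb hY) (B.bb.mul_mem_left s haI)
      rwa [sub_add_cancel] at h1
    · rintro q hq ⟨hXq, hYq⟩
      apply hS1 X' s hs q hq
      constructor
      · have h1 := q.asIdeal.sub_mem hXq (hPq q hq (hJP hX))
        rwa [sub_sub_cancel] at h1
      · apply mem_of_mul_mem Q B.bb a (by rw [hP]; exact ha1) q hq s
        have h1 : B.bb * P ≤ q.asIdeal * B.bb := by
          rw [mul_comm q.asIdeal]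
          exact Ideal.mul_mono_right (hPq q hq)
        have h2 := (q.asIdeal * B.bb).sub_mem hYq (h1 hY)
        rwa [sub_sub_cancel] at h2
  · have hfJ : Finite (𝓞 k ⧸ B.bb * P) := Ideal.finiteQuotientOfFreeOfNeBot _ hJ0
    have hfP : Finite (𝓞 k ⧸ P) := Ideal.finiteQuotientOfFreeOfNeBot _ hP0
    obtain ⟨f, hf⟩ : ∃ f : (𝓞 k ⧸ B.bb * P) × (𝓞 k ⧸ P) →+ (𝓞 k ⧸ P) × (𝓞 k ⧸ P),
        ∀ c, f c = (Ideal.Quotient.factor hJP c.1, c.2) :=
      ⟨AddMonoidHom.prodMap (Ideal.Quotient.factor hJP).toAddMonoidHom (AddMonoidHom.id _),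
        fun c => rfl⟩
    have hfs : Function.Surjective f := by
      rintro ⟨x, y⟩
      obtain ⟨x', rfl⟩ := Ideal.Quotient.factor_surjective hJP x
      exact ⟨(x', y), hf _⟩
    have hNJ : Nat.card (𝓞 k ⧸ B.bb * P) = B.b * Nat.card (𝓞 k ⧸ P) := by
      have h1 : Ideal.absNorm (B.bb * P) = Ideal.absNorm B.bb * Ideal.absNorm P := map_mul _ _ _
      rw [← B.nrm] at h1
      exact h1
    have hker : Nat.card f.ker = B.b := by
      have h1 := ncard_pre f hfs Set.univ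
      rw [Set.preimage_univ, Set.ncard_univ, Set.ncard_univ, Nat.card_prod, Nat.card_prod, hNJ]
        at h1
      have h2 : 0 < Nat.card (𝓞 k ⧸ P) := Nat.card_pos
      have h3 : B.b * (Nat.card (𝓞 k ⧸ P) * Nat.card (𝓞 k ⧸ P)) =
          Nat.card f.ker * (Nat.card (𝓞 k ⧸ P) * Nat.card (𝓞 k ⧸ P)) := by
        rw [← h1]
        ring
      exact (Nat.eq_of_mul_eq_mul_right (Nat.mul_pos h2 h2) h3).symm
    have hcard := ncard_pre f hfs S₀
    rw [hker] at hcard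
    have hle : (f ⁻¹' S₀).ncard ≤ ({c | ∃ X s : 𝓞 k, c = (Ideal.Quotient.mk (B.bb * P) X,
        Ideal.Quotient.mk (B.bb * P) (s * a)) ∧
        (Ideal.Quotient.mk P X, Ideal.Quotient.mk P s) ∈ S₀}).ncard := by
      have hsec : ∀ y : 𝓞 k ⧸ P, Ideal.Quotient.mk P
          (Function.surjInv Ideal.Quotient.mk_surjective y) = y := fun y =>
        Function.surjInv_eq Ideal.Quotient.mk_surjective y
      refine Set.ncard_le_ncard_of_injOn (fun c => (c.1, Ideal.Quotient.mk (B.bb * P)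
        (Function.surjInv Ideal.Quotient.mk_surjective c.2 * a))) ?_ ?_ (Set.toFinite _)
      · rintro ⟨x, y⟩ hc
        obtain ⟨X, rfl⟩ := Ideal.Quotient.mk_surjective x
        refine ⟨X, Function.surjInv Ideal.Quotient.mk_surjective y, rfl, ?_⟩
        rw [hsec y]
        have h1 : f (Ideal.Quotient.mk (B.bb * P) X, y) ∈ S₀ := hc
        rw [hf] at h1
        exact h1
      · rintro ⟨x, y⟩ _ ⟨x', y'⟩ _ h
        simp only [Prod.mk.injEq] at h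
        obtain ⟨h1, h2⟩ := h
        rw [Ideal.Quotient.mk_eq_mk_iff_sub_mem, ← sub_mul] at h2
        have h3 := ha1 _ h2
        rw [← Ideal.Quotient.mk_eq_mk_iff_sub_mem, hsec, hsec] at h3
        rw [h1, h3]
    rw [hcard] at hle
    have hle' : (B.b : ℝ) * (S₀.ncard : ℝ) ≤ (({c | ∃ X s : 𝓞 k,
        c = (Ideal.Quotient.mk (B.bb * P) X, Ideal.Quotient.mk (B.bb * P) (s * a)) ∧
        (Ideal.Quotient.mk P X, Ideal.Quotient.mk P s) ∈ S₀}).ncard : ℝ) := by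
      exact_mod_cast hle
    have hN : (Ideal.absNorm (B.bb * P) : ℝ) = (B.b : ℝ) * (Ideal.absNorm P : ℝ) := by
      rw [map_mul, ← B.nrm]
      push_cast
      ring
    rw [hN]
    calc (∏ p ∈ Q, (1 - 1 / np p ^ 2)) * ((B.b : ℝ) * (Ideal.absNorm P : ℝ)) ^ 2
        = (B.b : ℝ) ^ 2 * ((∏ p ∈ Q, (1 - 1 / np p ^ 2)) * (Ideal.absNorm P : ℝ) ^ 2) := by ring
      _ ≤ (B.b : ℝ) ^ 2 * (S₀.ncard : ℝ) := mul_le_mul_of_nonneg_left hS2 (by positivity)
      _ = (B.b : ℝ) * ((B.b : ℝ) * (S₀.ncard : ℝ)) := by ring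
      _ ≤ _ := mul_le_mul_of_nonneg_left hle' (by positivity)

theorem prb (prc : PrcStmt) (gnl : GnlStmt) (bfn : BfnStmt) : PrbStmt := by
  intro k _ _ B Q
  obtain ⟨_, hbb, _, _, _, _⟩ := bfn k B
  obtain ⟨S₀, hS1, hS2⟩ := prc k Q
  have hP0 : ∏ p ∈ Q, p.asIdeal ≠ ⊥ := by
    have h := Finset.prod_ne_zero_iff.2 (fun p (_ : p ∈ Q) => p.ne_bot)
    exact h
  exact prb_aux gnl k B Q hbb _ rfl hP0 S₀ hS1 hS2

end Pool.Agent.LeoD.H67
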